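import Pool.Agent.Helper10.NRDDefs
import Pool.Agent.Helper10.NRDMain

/-!
# A Boolean predicate with non-redundancy strictly between linear and quadratic

The predicate has arity 9 and six satisfying assignments, the one-hot encodings of the triples
`021, 102, 120, 111, 222, 210` over `{0,1,2}`.
-/

open Filter Topology NRDProblem

namespace Pool.Agent.Results.MP_7c0615_lc.BetweenLinearQuadratic

/-- There is a Boolean predicate `P` (of arity `9`) with `NRD(P,n) ≥ c n^{3/2}` for some `c > 0`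
and all large `n`, so that `NRD(P,n)/n → ∞`, and with `NRD(P,n)/n² → 0`. -/
theorem result :
    ∃ P : Set (Fin 9 → Bool),
      (∃ c : ℝ, 0 < c ∧ ∀ᶠ n : ℕ in atTop, c * (n : ℝ) ^ (3 / 2 : ℝ) ≤ (NRD P n : ℝ)) ∧
      Tendsto (fun n : ℕ => (NRD P n : ℝ) / (n : ℝ)) atTop atTop ∧
      Tendsto (fun n : ℕ => (NRD P n : ℝ) / (n : ℝ) ^ 2) atTop (𝓝 0) := by
  refine ⟨P9, ⟨1 / 216, by norm_num, ?_⟩, tendsto_lower, tendsto_upper⟩
  filter_upwards [eventually_ge_atTop 9] with n hn
  exact nrd_lower hn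

end Pool.Agent.Results.MP_7c0615_lc.BetweenLinearQuadratic
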